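import Mathlib

/-! # Defective list colouring of `K_{r,s}`-minor-free graphs: a counterexample family

`ρ = r - 1 ≥ 3` roots, copies with two private hubs and leaves; every leaf is adjacent to all
but one of the `r + 1` hubs seen by its copy and its list is the set of colours of these hubs. -/

set_option autoImplicit false

namespace Pool.Agent.Helper978.DefMinor

/-- hubs seen by a copy: the roots and two private hubs -/
abbrev Hb (ρ : ℕ) := Fin ρ ⊕ Fin 2

/-- index of a copy: colours of the roots, and a repetition number -/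
abbrev Idx (ρ N : ℕ) := (Fin ρ → Fin (ρ + 1)) × Fin N

/-- leaves of a copy: the missed hub `m` and a number below `t m` -/
abbrev Lf (ρ : ℕ) (t : Hb ρ → ℕ) := Σ m : Hb ρ, Fin (t m)

/-- vertices: roots, private hubs, leaves -/
abbrev Vt (ρ N : ℕ) (t : Hb ρ → ℕ) := Fin ρ ⊕ ((Idx ρ N × Fin 2) ⊕ (Idx ρ N × Lf ρ t))

section
variable {ρ N : ℕ} {t : Hb ρ → ℕ}

def root (i : Fin ρ) : Vt ρ N t := Sum.inl i
def hub (c : Idx ρ N) (j : Fin 2) : Vt ρ N t := Sum.inr (Sum.inl (c, j))
def leaf (c : Idx ρ N) (l : Lf ρ t) : Vt ρ N t := Sum.inr (Sum.inr (c, l))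

def hubOf (c : Idx ρ N) : Hb ρ → Vt ρ N t
  | .inl i => root i
  | .inr j => hub c j

def rel (x y : Vt ρ N t) : Prop :=
  (∃ i c j, x = root i ∧ y = hub c j) ∨
    (∃ c l h, h ≠ l.1 ∧ x = leaf c l ∧ y = hubOf c h)

def G (ρ N : ℕ) (t : Hb ρ → ℕ) : SimpleGraph (Vt ρ N t) := SimpleGraph.fromRel rel

theorem hubOf_ne_leaf (c : Idx ρ N) (h : Hb ρ) (c' : Idx ρ N) (l : Lf ρ t) :
    (hubOf c h : Vt ρ N t) ≠ leaf c' l := by
  cases h <;> simp [hubOf, root, hub, leaf]

theorem leaf_nbr {c : Idx ρ N} {l : Lf ρ t} {y : Vt ρ N t} (h : (G ρ N t).Adj (leaf c l) y) :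
    ∃ h, h ≠ l.1 ∧ y = hubOf c h := by
  rw [G, SimpleGraph.fromRel_adj] at h
  obtain ⟨_, h | h⟩ := h
  · rcases h with ⟨i, c', j, h1, _⟩ | ⟨c', l', k, hk, h1, h2⟩
    · exact absurd h1 (by simp [leaf, root])
    · simp only [leaf, Sum.inr.injEq, Prod.mk.injEq] at h1
      obtain ⟨rfl, rfl⟩ := h1
      exact ⟨k, hk, h2⟩
  · rcases h with ⟨i, c', j, _, h1⟩ | ⟨c', l', k, hk, h1, h2⟩
    · exact absurd h1 (by simp [leaf, hub])
    · exact absurd h2.symm (hubOf_ne_leaf _ _ _ _)

theorem adj_leaf {c : Idx ρ N} {l : Lf ρ t} {h : Hb ρ} (hm : h ≠ l.1) :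
    (G ρ N t).Adj (hubOf c h) (leaf c l) := by
  rw [G, SimpleGraph.fromRel_adj]
  exact ⟨hubOf_ne_leaf _ _ _ _, Or.inr (Or.inr ⟨c, l, h, hm, rfl, rfl⟩)⟩

theorem adj_root (i : Fin ρ) (c : Idx ρ N) (j : Fin 2) : (G ρ N t).Adj (root i) (hub c j) := by
  rw [G, SimpleGraph.fromRel_adj]
  exact ⟨by simp [root, hub], Or.inl (Or.inl ⟨i, c, j, rfl, rfl⟩)⟩

def cp : Vt ρ N t → Option (Idx ρ N)
  | .inl _ => none
  | .inr (.inl (c, _)) => some c
  | .inr (.inr (c, _)) => some c

theorem rel_cp {x y : Vt ρ N t} (h : rel x y) (hx : cp x ≠ none) (hy : cp y ≠ none) :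
    cp x = cp y := by
  rcases h with ⟨i, c', j, rfl, _⟩ | ⟨c', m', k, hk, rfl, rfl⟩
  · exact absurd rfl hx
  · cases k with
    | inl i => exact absurd rfl hy
    | inr j => rfl

theorem adj_cp {x y : Vt ρ N t} (h : (G ρ N t).Adj x y) (hx : cp x ≠ none) (hy : cp y ≠ none) :
    cp x = cp y := by
  rw [G, SimpleGraph.fromRel_adj] at h
  rcases h.2 with h | h
  · exact rel_cp h hx hy
  · exact (rel_cp h hy hx).symm

theorem same_cp {S : Set (Vt ρ N t)} (hS : ((G ρ N t).induce S).Connected)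
    (hn : ∀ x ∈ S, cp x ≠ none) (x y : S) : cp (x : Vt ρ N t) = cp (y : Vt ρ N t) := by
  obtain ⟨p⟩ := hS.preconnected x y
  induction p with
  | nil => rfl
  | cons h p ih => exact (adj_cp h (hn _ (Subtype.mem _)) (hn _ (Subtype.mem _))).trans ih

theorem leaf_only {S : Set (Vt ρ N t)} (hS : ((G ρ N t).induce S).Connected)
    (hn : ∀ x ∈ S, ∃ c m, x = leaf c m) (x y : S) : x = y := by
  obtain ⟨p⟩ := hS.preconnected x y
  cases p with
  | nil => rfl
  | @cons _ v _ h p =>
    exfalso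
    obtain ⟨c, m, hx⟩ := hn _ x.2
    obtain ⟨c', m', hv⟩ := hn _ v.2
    have h' : (G ρ N t).Adj (x : Vt ρ N t) (v : Vt ρ N t) := h
    rw [hx] at h'
    obtain ⟨k, _, hk⟩ := leaf_nbr h'
    rw [hv] at hk
    exact hubOf_ne_leaf _ _ _ _ hk.symm

/-- A pigeonhole statement: if the hubs different from `m` meet all `ρ + 1` sets of the first
side, then they do so bijectively. -/
theorem pig {Y : Type} (eta : Hb ρ → Fin (ρ + 1) ⊕ Y) (m : Hb ρ)
    (h : ∀ a : Fin (ρ + 1), ∃ k, k ≠ m ∧ eta k = Sum.inl a) :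
    (∀ k, k ≠ m → ∃ a, eta k = Sum.inl a) ∧ (∀ k l, k ≠ m → l ≠ m → eta k = eta l → k = l) := by
  classical
  choose f hf1 hf2 using h
  have hfi : Function.Injective f := by
    intro a b hab
    have := hf2 a
    rw [hab, hf2 b] at this
    exact (Sum.inl.inj this).symm
  have hcard : (Finset.univ.erase m : Finset (Hb ρ)).card = ρ + 1 := by
    rw [Finset.card_erase_of_mem (Finset.mem_univ _)]
    simp [Hb]
  have hsub : Finset.univ.image f ⊆ Finset.univ.erase m := by
    intro k hk
    obtain ⟨a, _, rfl⟩ := Finset.mem_image.mp hk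
    exact Finset.mem_erase.mpr ⟨hf1 a, Finset.mem_univ _⟩
  have heq : Finset.univ.image f = Finset.univ.erase m := by
    apply Finset.eq_of_subset_of_card_le hsub
    rw [Finset.card_image_of_injective _ hfi, hcard]
    simp
  have hsurj : ∀ k, k ≠ m → ∃ a, f a = k := by
    intro k hk
    have : k ∈ Finset.univ.image f := by
      rw [heq]; exact Finset.mem_erase.mpr ⟨hk, Finset.mem_univ _⟩
    obtain ⟨a, _, ha⟩ := Finset.mem_image.mp this
    exact ⟨a, ha⟩
  refine ⟨fun k hk => ?_, fun k l hk hl hkl => ?_⟩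
  · obtain ⟨a, rfl⟩ := hsurj k hk
    exact ⟨a, hf2 a⟩
  · obtain ⟨a, rfl⟩ := hsurj k hk
    obtain ⟨b, rfl⟩ := hsurj l hl
    rw [hf2, hf2] at hkl
    rw [Sum.inl.inj hkl]

theorem no_minor {s : ℕ} (hρs : ρ + 2 ≤ s) (ht1 : ∀ m, 1 ≤ t m)
    (ht2 : ∀ m m', m ≠ m' → t m + t m' + 1 ≤ s)
    (B : Fin (ρ + 1) ⊕ Fin s → Set (Vt ρ N t))
    (hc : ∀ u, ((G ρ N t).induce (B u)).Connected)
    (hd : ∀ u v, u ≠ v → Disjoint (B u) (B v))
    (ha : ∀ a b, ∃ x ∈ B (Sum.inl a), ∃ y ∈ B (Sum.inr b), (G ρ N t).Adj x y) : False := by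
  classical
  have hs0 : 0 < s := by omega
  have : Nonempty (Lf ρ t) := ⟨⟨Sum.inr 0, ⟨0, ht1 _⟩⟩⟩
  have own : ∀ x : Vt ρ N t, ∃ u : Fin (ρ + 1) ⊕ Fin s, ∀ v, x ∈ B v → v = u := by
    intro x
    by_cases h : ∃ u, x ∈ B u
    · obtain ⟨u, hu⟩ := h
      refine ⟨u, fun v hv => ?_⟩
      by_contra hne
      exact Set.disjoint_left.mp (hd v u hne) hv hu
    · exact ⟨Sum.inl 0, fun v hv => absurd ⟨v, hv⟩ h⟩
  choose ow how using own
  have hne : ∀ u, ∃ x, x ∈ B u := fun u => by
    obtain ⟨x⟩ := (hc u).nonempty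
    exact ⟨x, x.2⟩
  set Rt : Finset (Fin (ρ + 1) ⊕ Fin s) := Finset.univ.image (fun i : Fin ρ => ow (root i))
    with hRt
  have hRc : Rt.card ≤ ρ := by
    refine le_trans Finset.card_image_le ?_
    simp
  have hroot : ∀ u, u ∉ Rt → ∀ x ∈ B u, cp x ≠ none := by
    intro u hu x hx hcx
    rcases x with i | ⟨c, j⟩ | ⟨c, m⟩
    · exact hu (Finset.mem_image.mpr ⟨i, Finset.mem_univ _, (how _ _ hx).symm⟩)
    · simp [cp] at hcx
    · simp [cp] at hcx
  have same1 : ∀ u, u ∉ Rt → ∀ x ∈ B u, ∀ y ∈ B u, cp x = cp y := fun u hu x hx y hy =>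
    same_cp (hc u) (hroot u hu) ⟨x, hx⟩ ⟨y, hy⟩
  have same2 : ∀ a b, Sum.inl a ∉ Rt → Sum.inr b ∉ Rt →
      ∀ x ∈ B (Sum.inl a), ∀ y ∈ B (Sum.inr b), cp x = cp y := by
    intro a b hu hv x hx y hy
    obtain ⟨x', hx', y', hy', hxy⟩ := ha a b
    rw [same1 _ hu x hx x' hx', adj_cp hxy (hroot _ hu _ hx') (hroot _ hv _ hy')]
    exact same1 _ hv y' hy' y hy
  -- one vertex of each side avoids the roots
  obtain ⟨a0, ha0⟩ : ∃ a : Fin (ρ + 1), (Sum.inl a : Fin (ρ + 1) ⊕ Fin s) ∉ Rt := by
    by_contra hcon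
    push Not at hcon
    have := Finset.card_le_card (show (Finset.univ.image
      (fun a : Fin (ρ + 1) => (Sum.inl a : Fin (ρ + 1) ⊕ Fin s))) ⊆ Rt from by
        intro w hw
        obtain ⟨a, _, rfl⟩ := Finset.mem_image.mp hw
        exact hcon a)
    rw [Finset.card_image_of_injective _ Sum.inl_injective] at this
    simp at this
    omega
  obtain ⟨b0, hb0⟩ : ∃ b : Fin s, (Sum.inr b : Fin (ρ + 1) ⊕ Fin s) ∉ Rt := by
    by_contra hcon
    push Not at hcon
    have := Finset.card_le_card (show (Finset.univ.image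
      (fun a : Fin s => (Sum.inr a : Fin (ρ + 1) ⊕ Fin s))) ⊆ Rt from by
        intro w hw
        obtain ⟨a, _, rfl⟩ := Finset.mem_image.mp hw
        exact hcon a)
    rw [Finset.card_image_of_injective _ Sum.inr_injective] at this
    simp at this
    omega
  obtain ⟨x0, hx0⟩ := hne (Sum.inl a0)
  obtain ⟨y0, hy0⟩ := hne (Sum.inr b0)
  obtain ⟨c, hc0⟩ : ∃ c, cp x0 = some c := Option.ne_none_iff_exists'.mp (hroot _ ha0 x0 hx0)
  have hcy : cp y0 = some c := by rw [← same2 a0 b0 ha0 hb0 x0 hx0 y0 hy0, hc0]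
  have hcc : ∀ u, u ∉ Rt → ∀ x ∈ B u, cp x = some c := by
    intro u hu x hx
    cases u with
    | inl a => rw [same2 a b0 hu hb0 x hx y0 hy0, hcy]
    | inr b => rw [← same2 a0 b ha0 hu x0 hx0 x hx, hc0]
  set eta : Hb ρ → Fin (ρ + 1) ⊕ Fin s := fun h => ow (hubOf c h) with heta
  have key : ∀ u, (∀ h, eta h ≠ u) → ∃ l : Lf ρ t, B u = {leaf c l} := by
    intro u hu
    have huR : u ∉ Rt := by
      intro h
      obtain ⟨i, _, hi⟩ := Finset.mem_image.mp h
      exact hu (Sum.inl i) hi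
    have hleaf : ∀ x ∈ B u, ∃ m, x = leaf c m := by
      intro x hx
      have h1 := hcc u huR x hx
      rcases x with i | ⟨c', j⟩ | ⟨c', m⟩
      · simp [cp] at h1
      · simp only [cp, Option.some.injEq] at h1
        subst h1
        exact absurd (how _ _ hx).symm (hu (Sum.inr j))
      · simp only [cp, Option.some.injEq] at h1
        subst h1
        exact ⟨m, rfl⟩
    obtain ⟨x, hx⟩ := hne u
    obtain ⟨m, rfl⟩ := hleaf x hx
    refine ⟨m, Set.eq_singleton_iff_unique_mem.mpr ⟨hx, fun y hy => ?_⟩⟩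
    have := leaf_only (hc u) (fun x hx => by
      obtain ⟨m, hm⟩ := hleaf x hx
      exact ⟨c, m, hm⟩) ⟨y, hy⟩ ⟨_, hx⟩
    exact congrArg Subtype.val this
  -- the first side meets the hubs
  have hA : ∀ a, ∃ h, eta h = Sum.inl a := by
    intro a
    by_contra hcon
    push Not at hcon
    obtain ⟨l, hl⟩ := key (Sum.inl a) hcon
    have hb : ∀ b : Fin s, ∃ h, h ≠ l.1 ∧ eta h = Sum.inr b := by
      intro b
      obtain ⟨x, hx, y, hy, hxy⟩ := ha a b
      rw [hl, Set.mem_singleton_iff] at hx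
      subst hx
      obtain ⟨h, hh, rfl⟩ := leaf_nbr hxy
      exact ⟨h, hh, (how _ _ hy).symm⟩
    choose f hf1 hf2 using hb
    have hfi : Function.Injective f := by
      intro a b hab
      have := hf2 a
      rw [hab, hf2 b] at this
      exact (Sum.inr.inj this).symm
    have hsub : Finset.univ.image f ⊆ Finset.univ.erase l.1 := by
      intro k hk
      obtain ⟨a, _, rfl⟩ := Finset.mem_image.mp hk
      exact Finset.mem_erase.mpr ⟨hf1 a, Finset.mem_univ _⟩
    have h1 := Finset.card_le_card hsub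
    rw [Finset.card_image_of_injective _ hfi, Finset.card_erase_of_mem (Finset.mem_univ _)] at h1
    simp [Hb] at h1
    omega
  -- every set of the second side outside the hubs is a leaf whose hubs meet the first side
  have hB : ∀ b, (∀ h, eta h ≠ Sum.inr b) → ∃ l : Lf ρ t, B (Sum.inr b) = {leaf c l} ∧
      (∀ k, k ≠ l.1 → ∃ a, eta k = Sum.inl a) ∧
      (∀ k k', k ≠ l.1 → k' ≠ l.1 → eta k = eta k' → k = k') := by
    intro b hb
    obtain ⟨l, hl⟩ := key (Sum.inr b) hb
    refine ⟨l, hl, pig eta l.1 (fun a => ?_)⟩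
    obtain ⟨x, hx, y, hy, hxy⟩ := ha a b
    rw [hl, Set.mem_singleton_iff] at hy
    subst hy
    obtain ⟨h, hh, rfl⟩ := leaf_nbr hxy.symm
    exact ⟨h, hh, (how _ _ hx).symm⟩
  -- leaves of two types only
  have count : ∀ (S : Finset (Fin s)) (k k' : Hb ρ), k ≠ k' →
      (∀ b ∈ S, ∃ l : Lf ρ t, B (Sum.inr b) = {leaf c l} ∧ (l.1 = k ∨ l.1 = k')) →
      S.card ≤ t k + t k' := by
    intro S k k' hkk hS
    choose! f hf1 hf2 using hS
    have hinj : Set.InjOn f (S : Set (Fin s)) := by
      intro b hb b' hb' hbb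
      by_contra hne'
      have h1 : (leaf c (f b) : Vt ρ N t) ∈ B (Sum.inr b) := by rw [hf1 b hb]; rfl
      have h2 : (leaf c (f b) : Vt ρ N t) ∈ B (Sum.inr b') := by rw [hf1 b' hb', hbb]; rfl
      exact Set.disjoint_left.mp (hd _ _ (fun h => hne' (Sum.inr.inj h))) h1 h2
    have hsub : S.image f ⊆ (Finset.univ : Finset (Fin (t k))).image (fun i => (⟨k, i⟩ : Lf ρ t)) ∪
        (Finset.univ : Finset (Fin (t k'))).image (fun i => (⟨k', i⟩ : Lf ρ t)) := by
      intro l hl
      obtain ⟨b, hb, rfl⟩ := Finset.mem_image.mp hl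
      rw [Finset.mem_union]
      rcases hfb : f b with ⟨m, i⟩
      rcases hf2 b hb with h | h
      · left
        rw [hfb] at h
        simp only at h
        subst h
        exact Finset.mem_image.mpr ⟨i, Finset.mem_univ _, rfl⟩
      · right
        rw [hfb] at h
        simp only at h
        subst h
        exact Finset.mem_image.mpr ⟨i, Finset.mem_univ _, rfl⟩
    calc S.card = (S.image f).card := (Finset.card_image_of_injOn hinj).symm
      _ ≤ _ := Finset.card_le_card hsub
      _ ≤ _ := Finset.card_union_le _ _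
      _ ≤ t k + t k' := by
        refine Nat.add_le_add ?_ ?_
        · exact le_trans Finset.card_image_le (by simp)
        · exact le_trans Finset.card_image_le (by simp)
  by_cases hall : ∀ k, ∃ a, eta k = Sum.inl a
  · -- all hubs lie in sets of the first side
    choose g hg using hall
    obtain ⟨k, l, hkl, hekl⟩ : ∃ k l, k ≠ l ∧ eta k = eta l := by
      obtain ⟨k, l, hkl, he⟩ := Fintype.exists_ne_map_eq_of_card_lt g (by simp [Hb])
      exact ⟨k, l, hkl, by rw [hg, hg, he]⟩
    have h1 := count Finset.univ k l hkl (by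
      intro b _
      obtain ⟨m, hm, _, hinj⟩ := hB b (fun h hh => by
        rw [hg h] at hh; exact absurd hh (by simp))
      refine ⟨m, hm, ?_⟩
      by_contra hcon
      push Not at hcon
      exact hkl (hinj k l (fun h => hcon.1 h.symm) (fun h => hcon.2 h.symm) hekl))
    have h2 := ht2 k l hkl
    simp at h1
    omega
  · -- one hub lies in a set of the second side
    push Not at hall
    obtain ⟨k0, hk0⟩ := hall
    obtain ⟨b1, hb1⟩ : ∃ b1, eta k0 = Sum.inr b1 := by
      rcases hη : eta k0 with a | b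
      · exact absurd hη (hk0 a)
      · exact ⟨b, rfl⟩
    -- the other hubs cover the first side bijectively, hence no other set of the second side
    choose f hf using hA
    have hfi : Function.Injective f := by
      intro a b hab
      have := hf a
      rw [hab, hf b] at this
      exact (Sum.inl.inj this).symm
    have hfk : ∀ a, f a ≠ k0 := by
      intro a h
      have := hf a
      rw [h, hb1] at this
      exact absurd this (by simp)
    have heq : Finset.univ.image f = Finset.univ.erase k0 := by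
      apply Finset.eq_of_subset_of_card_le
      · intro k hk
        obtain ⟨a, _, rfl⟩ := Finset.mem_image.mp hk
        exact Finset.mem_erase.mpr ⟨hfk a, Finset.mem_univ _⟩
      · rw [Finset.card_image_of_injective _ hfi, Finset.card_erase_of_mem (Finset.mem_univ _)]
        simp [Hb]
    have hother : ∀ b, b ≠ b1 → ∀ h, eta h ≠ Sum.inr b := by
      intro b hb h hh
      by_cases hk : h = k0
      · rw [hk, hb1] at hh
        exact hb (Sum.inr.inj hh).symm
      · have : h ∈ Finset.univ.image f := by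
          rw [heq]; exact Finset.mem_erase.mpr ⟨hk, Finset.mem_univ _⟩
        obtain ⟨a, _, rfl⟩ := Finset.mem_image.mp this
        rw [hf a] at hh
        exact absurd hh (by simp)
    obtain ⟨k1, hk1⟩ : ∃ k1 : Hb ρ, k0 ≠ k1 := by
      by_cases h : k0 = Sum.inr 0
      · exact ⟨Sum.inr 1, by rw [h]; simp⟩
      · exact ⟨Sum.inr 0, h⟩
    have h1 : ((Finset.univ : Finset (Fin s)).erase b1).card ≤ t k0 := by
      -- count with the type `k0` only
      have hS : ∀ b ∈ (Finset.univ : Finset (Fin s)).erase b1,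
          ∃ l : Lf ρ t, B (Sum.inr b) = {leaf c l} ∧ l.1 = k0 := by
        intro b hb
        obtain ⟨m, hm, hin, _⟩ := hB b (hother b (Finset.mem_erase.mp hb).1)
        refine ⟨m, hm, ?_⟩
        by_contra hcon
        obtain ⟨a, haa⟩ := hin k0 (fun h => hcon h.symm)
        rw [hb1] at haa
        exact absurd haa (by simp)
      choose! f hf1 hf2 using hS
      have hinj : Set.InjOn f (((Finset.univ : Finset (Fin s)).erase b1 : Finset (Fin s)) : Set (Fin s)) := by
        intro b hb b' hb' hbb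
        by_contra hne'
        have h1 : (leaf c (f b) : Vt ρ N t) ∈ B (Sum.inr b) := by rw [hf1 b hb]; rfl
        have h2 : (leaf c (f b) : Vt ρ N t) ∈ B (Sum.inr b') := by rw [hf1 b' hb', hbb]; rfl
        exact Set.disjoint_left.mp (hd _ _ (fun h => hne' (Sum.inr.inj h))) h1 h2
      rw [← Finset.card_image_of_injOn hinj]
      refine le_trans (Finset.card_le_card (t := (Finset.univ : Finset (Fin (t k0))).image
        (fun i => (⟨k0, i⟩ : Lf ρ t))) ?_) (le_trans Finset.card_image_le (by simp))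
      intro l hl
      obtain ⟨b, hb, rfl⟩ := Finset.mem_image.mp hl
      have h := hf2 b hb
      rcases hfb : f b with ⟨m, i⟩
      rw [hfb] at h
      simp only at h
      subst h
      exact Finset.mem_image.mpr ⟨i, Finset.mem_univ _, rfl⟩
    rw [Finset.card_erase_of_mem (Finset.mem_univ _)] at h1
    simp at h1
    have h2 := ht2 k0 k1 hk1
    have h3 := ht1 k1
    omega


/-! ### The lists -/

def kap (c : Idx ρ N) : Hb ρ → ℕ
  | .inl i => Nat.pair i (c.1 i)
  | .inr j => Nat.pair ρ j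

theorem kap_inj (c : Idx ρ N) : Function.Injective (kap c) := by
  intro a b hab
  cases a with
  | inl i =>
    cases b with
    | inl i' =>
      have := (Nat.pair_eq_pair.mp hab).1
      rw [Fin.ext this]
    | inr j' =>
      have := (Nat.pair_eq_pair.mp hab).1
      have h := i.isLt
      omega
  | inr j =>
    cases b with
    | inl i' =>
      have := (Nat.pair_eq_pair.mp hab).1
      have h := i'.isLt
      omega
    | inr j' =>
      have := (Nat.pair_eq_pair.mp hab).2
      rw [Fin.ext this]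

open Classical in
/-- the lists of colours, all of size `ρ + 1` -/
noncomputable def L : Vt ρ N t → Finset ℕ
  | .inl i => Finset.univ.image (fun a : Fin (ρ + 1) => Nat.pair i a)
  | .inr (.inl (c, j)) => (insert (Sum.inr j) (Finset.univ.image Sum.inl)).image (kap c)
  | .inr (.inr (c, l)) => (Finset.univ.erase l.1).image (kap c)

theorem L_card (v : Vt ρ N t) : (L v).card = ρ + 1 := by
  classical
  rcases v with i | ⟨c, j⟩ | ⟨c, l⟩
  · rw [L, Finset.card_image_of_injective _ (fun a b h => Fin.ext (Nat.pair_eq_pair.mp h).2)]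
    simp
  · rw [L, Finset.card_image_of_injective _ (kap_inj c), Finset.card_insert_of_notMem (by simp),
      Finset.card_image_of_injective _ Sum.inl_injective]
    simp
  · rw [L, Finset.card_image_of_injective _ (kap_inj c),
      Finset.card_erase_of_mem (Finset.mem_univ _)]
    simp [Hb]

theorem le_ncard {V ι : Type} [Finite V] (P : V → Prop) (S : Finset ι) (f : ι → V)
    (hf : ∀ a ∈ S, ∀ b ∈ S, f a = f b → a = b) (hP : ∀ a ∈ S, P (f a)) :
    S.card ≤ ({w | P w} : Set V).ncard := by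
  classical
  have h1 : (S.image f).card = S.card := Finset.card_image_of_injOn (fun a ha b hb h => hf a ha b hb h)
  rw [← h1, ← Set.ncard_coe_finset]
  apply Set.ncard_le_ncard _ (Set.toFinite _)
  intro w hw
  obtain ⟨a, ha, rfl⟩ := Finset.mem_image.mp (Finset.mem_coe.mp hw)
  exact hP a ha

end

theorem big_defect {ρ d : ℕ} {t : Hb ρ → ℕ} (ht : 2 * d < ∑ m, t m)
    (col : Vt ρ (ρ * d + 1) t → ℕ) (hcol : ∀ v, col v ∈ L v) :
    ∃ v, d < ({w | (G ρ (ρ * d + 1) t).Adj v w ∧ col w = col v} :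
      Set (Vt ρ (ρ * d + 1) t)).ncard := by
  classical
  have hr : ∀ i : Fin ρ, ∃ a : Fin (ρ + 1), Nat.pair i a = col (root i) := by
    intro i
    have := hcol (root i)
    rw [root, L] at this
    obtain ⟨a, _, ha⟩ := Finset.mem_image.mp this
    exact ⟨a, ha⟩
  choose sel hsel using hr
  have hkr : ∀ k i, kap ((sel, k) : Idx ρ (ρ * d + 1)) (Sum.inl i) = col (root i) :=
    fun k i => hsel i
  by_cases hesc : ∀ k : Fin (ρ * d + 1), ∃ x : Vt ρ (ρ * d + 1) t, cp x = some (sel, k) ∧
      ∃ i, (G ρ (ρ * d + 1) t).Adj (root i) x ∧ col x = col (root i)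
  · choose x hx i hi hci using hesc
    obtain ⟨i0, hi0⟩ := Fintype.exists_lt_card_fiber_of_mul_lt_card (n := d) i (by simp)
    refine ⟨root i0, lt_of_lt_of_le hi0 (le_ncard _ _ x ?_ ?_)⟩
    · intro k _ l _ hkl
      have h1 := hx k
      rw [hkl, hx l] at h1
      simpa using h1.symm
    · intro k hk
      have := (Finset.mem_filter.mp hk).2
      rw [← this]
      exact ⟨hi k, hci k⟩
  · push Not at hesc
    obtain ⟨k, hk⟩ := hesc
    set c : Idx ρ (ρ * d + 1) := (sel, k) with hcdef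
    have hhub : ∀ j : Fin 2, col (hub c j) = kap c (Sum.inr j) := by
      intro j
      have h1 := hcol (hub c j)
      rw [hub, L] at h1
      obtain ⟨h, hh, hh'⟩ := Finset.mem_image.mp h1
      rcases Finset.mem_insert.mp hh with rfl | hh
      · exact hh'.symm
      · obtain ⟨i, _, rfl⟩ := Finset.mem_image.mp hh
        exact absurd (hh'.symm.trans (hkr k i)) (hk _ rfl i (adj_root _ _ _))
    have hleaf : ∀ l : Lf ρ t, ∃ j : Fin 2, Sum.inr j ≠ l.1 ∧
        col (leaf c l) = col (hub c j) := by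
      intro l
      have h1 := hcol (leaf c l)
      rw [leaf, L] at h1
      obtain ⟨h, hh, hh'⟩ := Finset.mem_image.mp h1
      have hm : h ≠ l.1 := (Finset.mem_erase.mp hh).1
      cases h with
      | inl i =>
        exact absurd (hh'.symm.trans (hkr k i)) (hk _ rfl i (adj_leaf (c := c) (l := l) hm))
      | inr j => exact ⟨j, hm, by rw [hhub j]; exact hh'.symm⟩
    choose j hj hcj using hleaf
    obtain ⟨j0, hj0⟩ := Fintype.exists_lt_card_fiber_of_mul_lt_card (n := d) j (by
      simp only [Fintype.card_fin, Fintype.card_sigma]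
      exact ht)
    refine ⟨hub c j0, lt_of_lt_of_le hj0 (le_ncard _ _ (leaf c) ?_ ?_)⟩
    · intro l _ l' _ hll
      simpa [leaf] using hll
    · intro l hl
      have h2 := (Finset.mem_filter.mp hl).2
      have h3 := adj_leaf (c := c) (l := l) (h := Sum.inr (j l)) (hj l)
      rw [h2] at h3
      refine ⟨h3, ?_⟩
      rw [hcj l, h2]

end Pool.Agent.Helper978.DefMinor
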